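import Pool.Agent.H743.X17.IsoStm

set_option autoImplicit false

open MeasureTheory Set

namespace Pool.Agent.H548.I17

open Pool.Agent.H743.X17

/-- affine substitution -/
theorem subst_aff (g : ℝ → ℝ) (a k s : ℝ) (hk : 0 < k) :
    ∫ y in Ioi (k * a + s), g y = k * ∫ x in Ioi a, g (k * x + s) := by
  have himg : (fun x => k * x + s) '' Ioi a = Ioi (k * a + s) := by
    ext y
    constructor
    · rintro ⟨x, hx, rfl⟩
      simp only [mem_Ioi] at *
      have := mul_lt_mul_of_pos_left hx hk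
      linarith
    · intro hy
      simp only [mem_Ioi] at hy
      refine ⟨(y - s) / k, ?_, ?_⟩
      · simp only [mem_Ioi]
        rw [lt_div_iff₀ hk]
        linarith
      · simp only
        field_simp
        ring
  have hd : ∀ x ∈ Ioi a, HasDerivWithinAt (fun x => k * x + s) ((fun _ => k) x) (Ioi a) x := by
    intro x _
    have h := ((hasDerivAt_id x).const_mul k).add_const s
    simpa using h.hasDerivWithinAt
  have hinj : InjOn (fun x => k * x + s) (Ioi a) := by
    intro x _ y _ hxy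
    simp only at hxy
    have : k * x = k * y := by linarith
    exact mul_left_cancel₀ hk.ne' this
  rw [← himg, integral_image_eq_integral_abs_deriv_smul measurableSet_Ioi hd hinj g]
  simp only [smul_eq_mul, abs_of_pos hk]
  rw [integral_const_mul]

theorem sqrt16 (A : ℝ) : Real.sqrt (16 * A) = 4 * Real.sqrt A := by
  rw [Real.sqrt_mul (by norm_num : (0 : ℝ) ≤ 16)]
  have : Real.sqrt 16 = 4 := by
    rw [show (16 : ℝ) = 4 ^ 2 by norm_num]
    exact Real.sqrt_sq (by norm_num)
  rw [this]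

/-- the period of `(4x + N)(x² + 8Nx + 20N²)` -/
theorem omJ (N : ℝ) (hN : N ≠ 0) :
    ∫ x in {x : ℝ | 0 < (4 * x + N) * (x ^ 2 + 8 * N * x + 20 * N ^ 2)},
      2 / Real.sqrt ((4 * x + N) * (x ^ 2 + 8 * N * x + 20 * N ^ 2)) =
    2 * ∫ x in Ioi (0 : ℝ), 1 / Real.sqrt (x * (x ^ 2 + (30 * N) * x + 289 * N ^ 2)) := by
  have hN2 : 0 < N ^ 2 := by positivity
  have hset : {x : ℝ | 0 < (4 * x + N) * (x ^ 2 + 8 * N * x + 20 * N ^ 2)} = Ioi (-N / 4) := by
    ext x
    simp only [mem_ofPred_eq, mem_Ioi]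
    have hq : 0 < x ^ 2 + 8 * N * x + 20 * N ^ 2 := by nlinarith [sq_nonneg (x + 4 * N)]
    rw [mul_pos_iff_of_pos_right hq]
    constructor <;> intro h <;> linarith
  have h0 : (0 : ℝ) = 4 * (-N / 4) + N := by ring
  rw [hset]
  conv_rhs => rw [h0]
  rw [subst_aff (fun x => 1 / Real.sqrt (x * (x ^ 2 + (30 * N) * x + 289 * N ^ 2))) (-N / 4) 4 N
    (by norm_num), ← mul_assoc, ← integral_const_mul]
  refine setIntegral_congr_fun measurableSet_Ioi fun x _ => ?_
  have e : (4 * x + N) * ((4 * x + N) ^ 2 + 30 * N * (4 * x + N) + 289 * N ^ 2) =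
      16 * ((4 * x + N) * (x ^ 2 + 8 * N * x + 20 * N ^ 2)) := by ring
  rw [e, sqrt16]
  rw [one_div, mul_inv, ← mul_assoc]
  rw [div_eq_mul_inv]
  norm_num

/-- the period of `4 (x - a)(x - b)(x - c)` -/
theorem omM (hE : S_EGG) (a b c : ℝ) (hab : a < b) (hbc : b < c) (f : ℝ → ℝ)
    (hf : ∀ x, f x = 4 * ((x - a) * (x - b) * (x - c))) :
    ∫ x in {x : ℝ | 0 < f x}, 2 / Real.sqrt (f x) =
    2 * ∫ x in Ioi c, 1 / Real.sqrt ((x - a) * (x - b) * (x - c)) := by
  have hfun : ∀ x, 2 / Real.sqrt (f x) = 1 / Real.sqrt ((x - a) * (x - b) * (x - c)) := by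
    intro x
    rw [hf, Real.sqrt_mul (by norm_num : (0 : ℝ) ≤ 4)]
    have : Real.sqrt 4 = 2 := by
      rw [show (4 : ℝ) = 2 ^ 2 by norm_num]
      exact Real.sqrt_sq (by norm_num)
    rw [this, one_div, div_eq_mul_inv, mul_inv, ← mul_assoc]
    norm_num
  have hset : {x : ℝ | 0 < f x} = Ioo a b ∪ Ioi c := by
    ext x
    simp only [mem_ofPred_eq, mem_union, mem_Ioo, mem_Ioi, hf]
    constructor
    · intro h
      have h' : 0 < (x - a) * (x - b) * (x - c) := by linarith
      by_contra hcon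
      push Not at hcon
      obtain ⟨h1, h2⟩ := hcon
      -- `x ≤ c`, and not in `(a, b)`
      rcases le_or_gt x a with hxa | hxa
      · have e1 : x - a ≤ 0 := by linarith
        have e2 : x - b ≤ 0 := by linarith
        have e3 : x - c ≤ 0 := by linarith
        have : (x - a) * (x - b) * (x - c) ≤ 0 :=
          mul_nonpos_of_nonneg_of_nonpos (mul_nonneg_of_nonpos_of_nonpos e1 e2) e3
        linarith
      · have e2 := h1 hxa
        have : (x - a) * (x - b) * (x - c) ≤ 0 :=
          mul_nonpos_of_nonneg_of_nonpos (mul_nonneg (by linarith) (by linarith)) (by linarith)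
        linarith
    · rintro (⟨h1, h2⟩ | h)
      · have : 0 < (x - a) * (x - b) * (x - c) := by
          rw [mul_assoc]
          exact mul_pos (by linarith) (mul_pos_of_neg_of_neg (by linarith) (by linarith))
        linarith
      · have : 0 < (x - a) * (x - b) * (x - c) :=
          mul_pos (mul_pos (by linarith) (by linarith)) (by linarith)
        linarith
  set g : ℝ → ℝ := fun x => 1 / Real.sqrt ((x - a) * (x - b) * (x - c)) with hg
  have hegg : ∫ x in Ioo a b, g x = ∫ x in Ioi c, g x := hE a b c hab hbc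
  have hfg : (fun x => 2 / Real.sqrt (f x)) = g := by
    funext x; exact hfun x
  rw [hfg, hset]
  have hdisj : Disjoint (Ioo a b) (Ioi c) := by
    rw [Set.disjoint_left]
    intro x hx hx'
    simp only [mem_Ioo, mem_Ioi] at hx hx'
    linarith [hx.2]
  have hg0 : ∀ x, 0 ≤ g x := fun x => by simp only [hg]; positivity
  by_cases hc : IntegrableOn g (Ioi c)
  · have hpos : 0 < ∫ x in Ioi c, g x := by
      rw [setIntegral_pos_iff_support_of_nonneg_ae (Filter.Eventually.of_forall hg0) hc]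
      have : Function.support g ∩ Ioi c = Ioi c := by
        rw [Set.inter_eq_right]
        intro x hx
        simp only [mem_Ioi] at hx
        have h1 : 0 < (x - a) * (x - b) * (x - c) :=
          mul_pos (mul_pos (by linarith) (by linarith)) (by linarith)
        have : 0 < g x := by simp only [hg]; positivity
        exact this.ne'
      rw [this]
      simp
    have hab' : IntegrableOn g (Ioo a b) := by
      by_contra hn
      have : ∫ x in Ioo a b, g x = 0 := integral_undef hn
      rw [← hegg, this] at hpos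
      exact lt_irrefl _ hpos
    rw [setIntegral_union hdisj measurableSet_Ioi hab' hc, hegg, two_mul]
  · have h0 : ∫ x in Ioi c, g x = 0 := integral_undef hc
    have h1 : ¬ IntegrableOn g (Ioo a b ∪ Ioi c) := fun h => hc (h.mono_set subset_union_right)
    have h2 : ∫ x in Ioo a b ∪ Ioi c, g x = 0 := integral_undef h1
    rw [h2, h0, mul_zero]

/-- the scaling `t = 16 x` -/
theorem scale (a b c : ℝ) :
    ∫ t in Ioi (16 * c), 1 / Real.sqrt ((t - 16 * a) * (t - 16 * b) * (t - 16 * c)) =
    (1 / 4) * ∫ x in Ioi c, 1 / Real.sqrt ((x - a) * (x - b) * (x - c)) := by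
  have h := subst_aff (fun t => 1 / Real.sqrt ((t - 16 * a) * (t - 16 * b) * (t - 16 * c))) c 16 0
    (by norm_num)
  rw [add_zero] at h
  rw [h, ← integral_const_mul, ← integral_const_mul]
  refine setIntegral_congr_fun measurableSet_Ioi fun x _ => ?_
  have e : (16 * x + 0 - 16 * a) * (16 * x + 0 - 16 * b) * (16 * x + 0 - 16 * c) =
      16 * (16 * (16 * ((x - a) * (x - b) * (x - c)))) := by ring
  rw [e, sqrt16, sqrt16, sqrt16]
  rw [one_div, one_div, mul_inv, mul_inv, mul_inv]
  ring

theorem key (hL : S_LAND) (hE : S_EGG) (N : ℝ) (hN : N ≠ 0) (f g : ℝ → ℝ)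
    (hf : ∀ x, f x = x * (4 * x + N) * (x - 4 * N))
    (hg : ∀ x, g x = (4 * x + N) * (x ^ 2 + 8 * N * x + 20 * N ^ 2)) :
    ∫ x in {x : ℝ | 0 < f x}, 2 / Real.sqrt (f x) =
    2 * ∫ x in {x : ℝ | 0 < g x}, 2 / Real.sqrt (g x) := by
  have hJ := omJ N hN
  have hg' : g = fun x => (4 * x + N) * (x ^ 2 + 8 * N * x + 20 * N ^ 2) := funext hg
  have hN2 : 0 < N ^ 2 := by positivity
  have hNa : 0 < |N| := abs_pos.mpr hN
  have hs : Real.sqrt (289 * N ^ 2) = 17 * |N| := by
    rw [show (289 : ℝ) * N ^ 2 = (17 * N) ^ 2 by ring, Real.sqrt_sq_eq_abs, abs_mul]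
    norm_num
  have hLa := hL (30 * N) (289 * N ^ 2) (by positivity) (by
    rw [hs]
    have := neg_abs_le N
    linarith)
  rw [hs] at hLa
  have e1 : ∫ x in {x : ℝ | 0 < g x}, 2 / Real.sqrt (g x) =
      4 * ∫ t in Ioi (30 * N + 2 * (17 * |N|)),
        1 / Real.sqrt (t * ((t - 30 * N) ^ 2 - 4 * (289 * N ^ 2))) := by
    rw [hg', hJ, hLa]
    ring
  rw [e1]
  rcases lt_or_gt_of_ne hN with hneg | hpos
  · -- `N < 0`: roots `4N < 0 < -N/4`
    rw [omM hE (4 * N) 0 (-N / 4) (by linarith) (by linarith) f (fun x => by rw [hf]; ring)]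
    have hsc := scale (4 * N) 0 (-N / 4)
    have habs : |N| = -N := abs_of_neg hneg
    have e2 : (30 * N + 2 * (17 * |N|)) = 16 * (-N / 4) := by rw [habs]; ring
    have e3 : (fun t : ℝ => 1 / Real.sqrt (t * ((t - 30 * N) ^ 2 - 4 * (289 * N ^ 2)))) =
        fun t : ℝ => 1 / Real.sqrt ((t - 16 * (4 * N)) * (t - 16 * 0) * (t - 16 * (-N / 4))) := by
      funext t
      congr 2
      ring
    rw [e2, e3, hsc]
    ring
  · -- `N > 0`: roots `-N/4 < 0 < 4N`
    rw [omM hE (-N / 4) 0 (4 * N) (by linarith) (by linarith) f (fun x => by rw [hf]; ring)]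
    have hsc := scale (-N / 4) 0 (4 * N)
    have habs : |N| = N := abs_of_pos hpos
    have e2 : (30 * N + 2 * (17 * |N|)) = 16 * (4 * N) := by rw [habs]; ring
    have e3 : (fun t : ℝ => 1 / Real.sqrt (t * ((t - 30 * N) ^ 2 - 4 * (289 * N ^ 2)))) =
        fun t : ℝ => 1 / Real.sqrt ((t - 16 * (-N / 4)) * (t - 16 * 0) * (t - 16 * (4 * N))) := by
      funext t
      congr 2
      ring
    rw [e2, e3, hsc]
    ring

theorem t_IOM0 : S_LAND → S_EGG → S_IOM0 := by
  intro hL hE m hm
  unfold Pool.Agent.Y700.Omega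
  by_cases h4 : m % 4 = 1
  · have hd1 : (4 : ℤ) ∣ 15 * m + 1 := by omega
    have hd2 : (4 : ℤ) ∣ 33 * m - 1 := by omega
    obtain ⟨k1, hk1⟩ := hd1
    obtain ⟨k2, hk2⟩ := hd2
    have hk1' : (15 * m + 1) / 4 = k1 := by omega
    have hk2' : (33 * m - 1) / 4 = k2 := by omega
    have hk1r : (15 : ℝ) * m + 1 = 4 * k1 := by exact_mod_cast hk1
    have hk2r : (33 : ℝ) * m - 1 = 4 * k2 := by exact_mod_cast hk2
    apply key hL hE (m : ℝ) (by exact_mod_cast hm)
    · intro x
      simp only [Pool.Agent.Y700.psi, WM, h4, if_true, W1, WeierstrassCurve.b₂,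
        WeierstrassCurve.b₄, WeierstrassCurve.b₆, hk1']
      push_cast
      linear_combination (x ^ 2) * hk1r
    · intro x
      simp only [Pool.Agent.Y700.psi, WJ, h4, if_true, be, ga, de, WeierstrassCurve.b₂,
        WeierstrassCurve.b₄, WeierstrassCurve.b₆, hk2']
      push_cast
      linear_combination (-x ^ 2) * hk2r
  · apply key hL hE (4 * (m : ℝ)) (by
      have : (m : ℝ) ≠ 0 := by exact_mod_cast hm
      positivity)
    · intro x
      simp only [Pool.Agent.Y700.psi, WM, h4, if_false, W2, WeierstrassCurve.b₂,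
        WeierstrassCurve.b₄, WeierstrassCurve.b₆]
      push_cast
      ring
    · intro x
      simp only [Pool.Agent.Y700.psi, WJ, h4, if_false, be, ga, de, WeierstrassCurve.b₂,
        WeierstrassCurve.b₄, WeierstrassCurve.b₆]
      push_cast
      ring

end Pool.Agent.H548.I17
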